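import Mathlib

/-!
# Project SP (MP_cc0731_co): the energy lemma (E)

Elementary incidence bound for cartesian products and positive slopes, and
`|Γ|⁴ ≤ 1024 m⁶ (1 + log m) |Y Y|` for `Γ ⊆ X × Y` with all sums in `S`.
-/

set_option autoImplicit false

namespace Pool.Agent.Helper62.SP

open Finset
open scoped Pointwise

variable {K : Type*} [Field K] [LinearOrder K] [IsStrictOrderedRing K]

/-- the abscissae of the points of `V × V` on the line `y = t x + c` -/
def ln (V : Finset K) (t c : K) : Finset K := V.filter (fun a => t * a + c ∈ V)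

/-- the rank in `V` -/
def rk (V : Finset K) (a : K) : ℕ := (V.filter (fun v => v < a)).card

omit [Field K] [IsStrictOrderedRing K] in
theorem rk_lt (V : Finset K) {a b : K} (ha : a ∈ V) (hab : a < b) : rk V a < rk V b := by
  unfold rk
  apply Finset.card_lt_card
  rw [Finset.ssubset_iff_of_subset]
  · exact ⟨a, by simp [ha, hab], by simp⟩
  · intro v hv
    rw [mem_filter] at hv ⊢
    exact ⟨hv.1, hv.2.trans hab⟩

omit [Field K] [IsStrictOrderedRing K] in
theorem rk_lt_card (V : Finset K) {a : K} (ha : a ∈ V) : rk V a < V.card := by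
  unfold rk
  apply Finset.card_lt_card
  rw [Finset.ssubset_iff_of_subset (Finset.filter_subset _ _)]
  exact ⟨a, ha, by simp⟩

/-- the tangent line inequality -/
theorem tangent (x μ : ℝ) (hx : 0 < x) (hμ : 0 < μ) : 3 / μ ^ 2 ≤ 2 / μ ^ 3 * x + 1 / x ^ 2 := by
  have h : 2 / μ ^ 3 * x + 1 / x ^ 2 - 3 / μ ^ 2 = (x - μ) ^ 2 * (2 * x + μ) / (μ ^ 3 * x ^ 2) := by
    field_simp
    ring
  have h2 : 0 ≤ (x - μ) ^ 2 * (2 * x + μ) / (μ ^ 3 * x ^ 2) := by positivity
  linarith

omit [Field K] [IsStrictOrderedRing K] in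
/-- a chain with `k` elements -/
theorem chain_aux (g : K → ℝ) (μ : ℝ) (hμ : 0 < μ) (P : Finset K) :
    (∀ a ∈ P, 0 ≤ g a) → (∀ a ∈ P, ∀ b ∈ P, a < b → g a < g b) → ∀ a ∈ P, (∀ b ∈ P, b ≤ a) →
    ((P.card : ℝ) - 1) * (3 / μ ^ 2) ≤ 2 / μ ^ 3 * g a +
      ∑ x ∈ P, ∑ y ∈ P with x < y, 1 / (g y - g x) ^ 2 := by
  induction P using Finset.induction_on_max with
  | empty => intro _ _ a ha; simp at ha
  | insert m P hm ih =>
    intro h0 h1 a ha hmax
    have hmP : m ∉ P := fun h => lt_irrefl _ (hm m h)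
    have ham : a = m := by
      rcases Finset.mem_insert.1 ha with h | h
      · exact h
      · exact absurd (hmax m (mem_insert_self _ _)) (not_le.2 (hm a h))
    subst ham
    rw [Finset.card_insert_of_notMem hmP]
    have hg0 : 0 ≤ g a := h0 a (mem_insert_self _ _)
    rcases P.eq_empty_or_nonempty with hP | hP
    · subst hP
      simp only [Finset.card_empty]
      have : 0 ≤ ∑ x ∈ insert a ∅, ∑ y ∈ insert a ∅ with x < y, 1 / (g y - g x) ^ 2 :=
        Finset.sum_nonneg fun _ _ => Finset.sum_nonneg fun _ _ => by positivity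
      have h2 : 0 ≤ 2 / μ ^ 3 * g a := by positivity
      push_cast
      linarith
    · obtain ⟨b, hb, hbmax⟩ := P.exists_max_image id hP
      simp only [id] at hbmax
      have hba : b < a := hm b hb
      have h2 := ih (fun x hx => h0 x (mem_insert_of_mem hx))
        (fun x hx y hy => h1 x (mem_insert_of_mem hx) y (mem_insert_of_mem hy)) b hb hbmax
      have hgb : g b < g a := h1 b (mem_insert_of_mem hb) a (mem_insert_self _ _) hba
      have h3 := tangent (g a - g b) μ (by linarith) hμ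
      have h4 : ∑ x ∈ P, ∑ y ∈ P with x < y, 1 / (g y - g x) ^ 2 + 1 / (g a - g b) ^ 2 ≤
          ∑ x ∈ insert a P, ∑ y ∈ insert a P with x < y, 1 / (g y - g x) ^ 2 := by
        rw [Finset.sum_insert hmP]
        have h5 : 0 ≤ ∑ y ∈ insert a P with a < y, 1 / (g y - g a) ^ 2 :=
          Finset.sum_nonneg fun _ _ => by positivity
        have h6 : ∀ x ∈ P, ∑ y ∈ insert a P with x < y, 1 / (g y - g x) ^ 2 =
            1 / (g a - g x) ^ 2 + ∑ y ∈ P with x < y, 1 / (g y - g x) ^ 2 := by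
          intro x hx
          rw [Finset.filter_insert, if_pos (hm x hx), Finset.sum_insert]
          intro h
          exact hmP (Finset.mem_filter.1 h).1
        rw [Finset.sum_congr rfl h6, Finset.sum_add_distrib]
        have h7 : 1 / (g a - g b) ^ 2 ≤ ∑ x ∈ P, 1 / (g a - g x) ^ 2 :=
          Finset.single_le_sum (f := fun x => 1 / (g a - g x) ^ 2)
            (fun _ _ => by positivity) hb
        linarith
      push_cast
      have e : ((P.card : ℝ) + 1 - 1) * (3 / μ ^ 2) = ((P.card : ℝ) - 1) * (3 / μ ^ 2) +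
        3 / μ ^ 2 := by ring
      rw [e]
      have e2 : 2 / μ ^ 3 * (g a - g b) = 2 / μ ^ 3 * g a - 2 / μ ^ 3 * g b := by ring
      rw [e2] at h3
      linarith

/-- weight function of a line -/
def gl (V : Finset K) (t c : K) (a : K) : ℝ := rk V a + rk V (t * a + c)

theorem chain (V : Finset K) (t c : K) (ht : 0 < t) :
    (((ln V t c).card - 1 : ℕ) : ℝ) ^ 3 ≤ 4 * (V.card : ℝ) ^ 2 *
      ∑ x ∈ ln V t c, ∑ y ∈ ln V t c with x < y, 1 / (gl V t c y - gl V t c x) ^ 2 := by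
  set P := ln V t c with hP
  have hS : 0 ≤ ∑ x ∈ P, ∑ y ∈ P with x < y, 1 / (gl V t c y - gl V t c x) ^ 2 :=
    Finset.sum_nonneg fun _ _ => Finset.sum_nonneg fun _ _ => by positivity
  rcases Nat.lt_or_ge P.card 2 with hk | hk
  · have : P.card - 1 = 0 := by omega
    rw [this]
    simp only [Nat.cast_zero]
    rw [zero_pow (by norm_num)]
    positivity
  · have hne : P.Nonempty := Finset.card_pos.1 (by omega)
    obtain ⟨a, ha, hamax⟩ := P.exists_max_image id hne
    simp only [id] at hamax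
    have hVpos : 0 < V.card := by
      have : P ⊆ V := Finset.filter_subset _ _
      have := Finset.card_le_card this
      omega
    have hL : (0 : ℝ) < V.card := by exact_mod_cast hVpos
    have hk1 : (((P.card - 1 : ℕ)) : ℝ) = (P.card : ℝ) - 1 := by
      rw [Nat.cast_sub (by omega)]; simp
    have hk2 : (1 : ℝ) ≤ (P.card : ℝ) - 1 := by
      have : (2 : ℝ) ≤ P.card := by exact_mod_cast hk
      linarith
    have hmem : ∀ x ∈ P, x ∈ V ∧ t * x + c ∈ V := fun x hx => Finset.mem_filter.1 hx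
    have h := chain_aux (gl V t c) (2 * V.card / ((P.card : ℝ) - 1)) (by positivity) P
      (fun x _ => by unfold gl; positivity)
      (fun x hx y hy hxy => by
        unfold gl
        have h1 : rk V x < rk V y := rk_lt V (hmem x hx).1 hxy
        have h2 : rk V (t * x + c) < rk V (t * y + c) := rk_lt V (hmem x hx).2 (by
          have := mul_lt_mul_of_pos_left hxy ht
          linarith)
        have h3 : (rk V x : ℝ) < rk V y := by exact_mod_cast h1
        have h4 : (rk V (t * x + c) : ℝ) < rk V (t * y + c) := by exact_mod_cast h2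
        linarith) a ha hamax
    have hga : gl V t c a ≤ 2 * V.card := by
      unfold gl
      have h1 : (rk V a : ℝ) < V.card := by exact_mod_cast rk_lt_card V (hmem a ha).1
      have h2 : (rk V (t * a + c) : ℝ) < V.card := by exact_mod_cast rk_lt_card V (hmem a ha).2
      linarith
    set κ : ℝ := (P.card : ℝ) - 1 with hκ
    set Lr : ℝ := (V.card : ℝ) with hLr
    set Sg := ∑ x ∈ P, ∑ y ∈ P with x < y, 1 / (gl V t c y - gl V t c x) ^ 2 with hSg
    rw [hk1]
    have h5 : 2 / (2 * Lr / κ) ^ 3 * gl V t c a ≤ 2 / (2 * Lr / κ) ^ 3 * (2 * Lr) := by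
      apply mul_le_mul_of_nonneg_left hga (by positivity)
    have h6 : 2 / (2 * Lr / κ) ^ 3 * (2 * Lr) = κ ^ 3 / (2 * Lr ^ 2) := by
      field_simp
    have h7 : κ * (3 / (2 * Lr / κ) ^ 2) = 3 * κ ^ 3 / (4 * Lr ^ 2) := by
      field_simp
      norm_num
    rw [h7] at h
    rw [h6] at h5
    have h8 : 3 * κ ^ 3 / (4 * Lr ^ 2) = κ ^ 3 / (2 * Lr ^ 2) + κ ^ 3 / (4 * Lr ^ 2) := by
      field_simp
      ring
    have h9 : κ ^ 3 / (4 * Lr ^ 2) ≤ Sg := by linarith
    rw [div_le_iff₀ (by positivity)] at h9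
    linarith

theorem tele (i : ℕ) (hi : 1 ≤ i) (L : ℕ) :
    ∑ j ∈ Icc 1 L, 1 / ((i : ℝ) + (j : ℝ)) ^ 2 ≤ 1 / (i : ℝ) - 1 / ((i : ℝ) + (L : ℝ)) := by
  have hi0 : (1 : ℝ) ≤ i := by exact_mod_cast hi
  induction L with
  | zero => simp
  | succ L ih =>
    rw [Finset.sum_Icc_succ_top (by omega)]
    have h1 : 1 / ((i : ℝ) + (L + 1 : ℕ)) ^ 2 ≤ 1 / ((i : ℝ) + L) - 1 / ((i : ℝ) + (L + 1 : ℕ)) := by
      push_cast
      rw [div_sub_div _ _ (by positivity) (by positivity), div_le_div_iff₀ (by positivity)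
        (by positivity)]
      nlinarith [(Nat.cast_nonneg L : (0 : ℝ) ≤ L)]
    linarith

theorem dbl (L : ℕ) (hL : 1 ≤ L) :
    ∑ i ∈ Icc 1 L, ∑ j ∈ Icc 1 L, 1 / ((i : ℝ) + j) ^ 2 ≤ 1 + Real.log L := by
  calc ∑ i ∈ Icc 1 L, ∑ j ∈ Icc 1 L, 1 / ((i : ℝ) + j) ^ 2 ≤ ∑ i ∈ Icc 1 L, (i : ℝ)⁻¹ := by
        refine Finset.sum_le_sum fun i hi => ?_
        rw [mem_Icc] at hi
        have h := tele i hi.1 L
        have h2 : (0 : ℝ) ≤ 1 / ((i : ℝ) + L) := by positivity
        rw [← one_div]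
        linarith
    _ = ((harmonic L : ℚ) : ℝ) := by
        rw [harmonic_eq_sum_Icc]
        push_cast
        rfl
    _ ≤ 1 + Real.log L := harmonic_le_one_add_log L

omit [Field K] [IsStrictOrderedRing K] in
/-- reindexing by rank -/
theorem reidx (V : Finset K) (a : K) (ha : a ∈ V) (F : ℕ → ℝ) (hF : ∀ i, 0 ≤ F i) :
    ∑ y ∈ V with a < y, F (rk V y - rk V a) ≤ ∑ i ∈ Icc 1 V.card, F i := by
  have hinj : Set.InjOn (fun y => rk V y - rk V a) ((V.filter (fun y => a < y)) : Set K) := by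
    intro y hy z hz hyz
    rw [Finset.mem_coe, mem_filter] at hy hz
    simp only at hyz
    have h1 := rk_lt V ha hy.2
    have h2 := rk_lt V ha hz.2
    rcases lt_trichotomy y z with h | h | h
    · have := rk_lt V hy.1 h; omega
    · exact h
    · have := rk_lt V hz.1 h; omega
  rw [← Finset.sum_image (f := F) (g := fun y => rk V y - rk V a) hinj]
  refine Finset.sum_le_sum_of_subset_of_nonneg ?_ fun _ _ _ => hF _
  intro i hi
  rw [mem_image] at hi
  obtain ⟨y, hy, rfl⟩ := hi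
  rw [mem_filter] at hy
  have h1 := rk_lt V ha hy.2
  have h2 := rk_lt_card V hy.1
  rw [mem_Icc]
  omega

omit [Field K] [IsStrictOrderedRing K] in
/-- the sum of the weights over all increasing pairs of points -/
theorem total (V : Finset K) (hV : 1 ≤ V.card) :
    ∑ a ∈ V, ∑ a' ∈ V with a < a', ∑ b ∈ V, ∑ b' ∈ V with b < b',
      1 / ((((rk V a' - rk V a : ℕ) : ℝ) + ((rk V b' - rk V b : ℕ) : ℝ))) ^ 2 ≤
    (V.card : ℝ) ^ 2 * (1 + Real.log V.card) := by
  have h1 : ∀ i : ℕ, ∑ b ∈ V, ∑ b' ∈ V with b < b', 1 / (((i : ℝ) + ((rk V b' - rk V b : ℕ) : ℝ))) ^ 2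
      ≤ (V.card : ℝ) * ∑ j ∈ Icc 1 V.card, 1 / ((i : ℝ) + j) ^ 2 := by
    intro i
    calc _ ≤ ∑ b ∈ V, ∑ j ∈ Icc 1 V.card, 1 / ((i : ℝ) + j) ^ 2 :=
          Finset.sum_le_sum fun b hb =>
            reidx V b hb (fun j => 1 / ((i : ℝ) + j) ^ 2) (fun _ => by positivity)
      _ = _ := by rw [Finset.sum_const, nsmul_eq_mul]
  calc _ ≤ ∑ a ∈ V, ∑ a' ∈ V with a < a',
        ((V.card : ℝ) * ∑ j ∈ Icc 1 V.card, 1 / (((rk V a' - rk V a : ℕ) : ℝ) + j) ^ 2) :=
        Finset.sum_le_sum fun a _ => Finset.sum_le_sum fun a' _ => h1 _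
    _ ≤ ∑ a ∈ V, ∑ i ∈ Icc 1 V.card, ((V.card : ℝ) * ∑ j ∈ Icc 1 V.card, 1 / ((i : ℝ) + j) ^ 2) :=
        Finset.sum_le_sum fun a ha =>
          reidx V a ha (fun i => (V.card : ℝ) * ∑ j ∈ Icc 1 V.card, 1 / ((i : ℝ) + j) ^ 2)
            (fun _ => by positivity)
    _ = (V.card : ℝ) ^ 2 * ∑ i ∈ Icc 1 V.card, ∑ j ∈ Icc 1 V.card, 1 / ((i : ℝ) + j) ^ 2 := by
        rw [Finset.sum_const, nsmul_eq_mul, ← Finset.mul_sum]
        ring
    _ ≤ _ := mul_le_mul_of_nonneg_left (dbl _ hV) (by positivity)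

/-- incidence bound: lines of positive slope and a cartesian square -/
theorem lines (V : Finset K) (hV : 1 ≤ V.card) (𝓛 : Finset (K × K)) (h𝓛 : ∀ l ∈ 𝓛, 0 < l.1) :
    ∑ l ∈ 𝓛, (((ln V l.1 l.2).card - 1 : ℕ) : ℝ) ^ 3 ≤
      4 * (V.card : ℝ) ^ 4 * (1 + Real.log V.card) := by
  classical
  calc ∑ l ∈ 𝓛, (((ln V l.1 l.2).card - 1 : ℕ) : ℝ) ^ 3
      ≤ ∑ l ∈ 𝓛, 4 * (V.card : ℝ) ^ 2 * ∑ x ∈ ln V l.1 l.2, ∑ y ∈ ln V l.1 l.2 with x < y,
          1 / (gl V l.1 l.2 y - gl V l.1 l.2 x) ^ 2 :=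
        Finset.sum_le_sum fun l hl => chain V l.1 l.2 (h𝓛 l hl)
    _ = 4 * (V.card : ℝ) ^ 2 * ∑ l ∈ 𝓛, ∑ x ∈ ln V l.1 l.2, ∑ y ∈ ln V l.1 l.2 with x < y,
          1 / (gl V l.1 l.2 y - gl V l.1 l.2 x) ^ 2 := by rw [Finset.mul_sum]
    _ ≤ 4 * (V.card : ℝ) ^ 2 * ((V.card : ℝ) ^ 2 * (1 + Real.log V.card)) := by
        apply mul_le_mul_of_nonneg_left _ (by positivity)
        refine le_trans ?_ (total V hV)
        -- the injection
        let T : Finset (K × K × K × K) := ((V ×ˢ V ×ˢ V ×ˢ V).filter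
          (fun q => q.1 < q.2.1 ∧ q.2.2.1 < q.2.2.2))
        let w : K × K × K × K → ℝ := fun q =>
          1 / ((((rk V q.2.1 - rk V q.1 : ℕ) : ℝ) + ((rk V q.2.2.2 - rk V q.2.2.1 : ℕ) : ℝ))) ^ 2
        have hT : ∑ a ∈ V, ∑ a' ∈ V with a < a', ∑ b ∈ V, ∑ b' ∈ V with b < b',
            1 / ((((rk V a' - rk V a : ℕ) : ℝ) + ((rk V b' - rk V b : ℕ) : ℝ))) ^ 2 =
            ∑ q ∈ T, w q := by
          rw [Finset.sum_filter, Finset.sum_product]
          refine Finset.sum_congr rfl fun a _ => ?_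
          rw [Finset.sum_filter, Finset.sum_product]
          refine Finset.sum_congr rfl fun a' _ => ?_
          split_ifs with h
          · rw [Finset.sum_product]
            refine Finset.sum_congr rfl fun b _ => ?_
            rw [Finset.sum_filter]
            refine Finset.sum_congr rfl fun b' _ => ?_
            simp only [h, true_and, w]
          · symm
            apply Finset.sum_eq_zero
            intro x _
            rw [if_neg (fun hh => h hh.1)]
        rw [hT]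
        let R : Finset ((_ : K × K) × (K × K)) := 𝓛.sigma
          (fun l => ((ln V l.1 l.2 ×ˢ ln V l.1 l.2).filter (fun q => q.1 < q.2)))
        let φ : ((_ : K × K) × (K × K)) → K × K × K × K := fun s =>
          (s.2.1, s.2.2, s.1.1 * s.2.1 + s.1.2, s.1.1 * s.2.2 + s.1.2)
        have hR : ∑ l ∈ 𝓛, ∑ x ∈ ln V l.1 l.2, ∑ y ∈ ln V l.1 l.2 with x < y,
          1 / (gl V l.1 l.2 y - gl V l.1 l.2 x) ^ 2 = ∑ s ∈ R, w (φ s) := by
          rw [Finset.sum_sigma]
          refine Finset.sum_congr rfl fun l hl => ?_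
          rw [Finset.sum_filter, Finset.sum_product]
          refine Finset.sum_congr rfl fun x hx => ?_
          rw [Finset.sum_filter]
          refine Finset.sum_congr rfl fun y hy => ?_
          split_ifs with h
          · have hx' := Finset.mem_filter.1 hx
            have h1 : rk V x < rk V y := rk_lt V hx'.1 h
            have h2 : rk V (l.1 * x + l.2) < rk V (l.1 * y + l.2) := rk_lt V hx'.2 (by
              have := mul_lt_mul_of_pos_left h (h𝓛 l hl)
              linarith)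
            simp only [w, φ, gl]
            rw [Nat.cast_sub h1.le, Nat.cast_sub h2.le]
            congr 2
            ring
          · rfl
        rw [hR]
        have hinj : Set.InjOn φ (R : Set ((_ : K × K) × (K × K))) := by
          rintro ⟨⟨t, c⟩, ⟨x, y⟩⟩ hs ⟨⟨t', c'⟩, ⟨x', y'⟩⟩ hs' he
          simp only [φ, Prod.mk.injEq] at he
          obtain ⟨h1, h2, h3, h4⟩ := he
          subst h1 h2
          have hxy : x < y := by
            have := (Finset.mem_sigma.1 (Finset.mem_coe.1 hs)).2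
            exact (Finset.mem_filter.1 this).2
          have h5 : t * (y - x) = t' * (y - x) := by linear_combination h4 - h3
          have h6 : t = t' := mul_right_cancel₀ (sub_ne_zero.2 hxy.ne') h5
          subst h6
          have h7 : c = c' := by linear_combination h3
          subst h7
          rfl
        rw [← Finset.sum_image (f := w) (g := φ) hinj]
        refine Finset.sum_le_sum_of_subset_of_nonneg ?_ fun q _ _ => by
          simp only [w]
          positivity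
        intro q hq
        rw [mem_image] at hq
        obtain ⟨⟨⟨t, c⟩, ⟨x, y⟩⟩, hs, rfl⟩ := hq
        rw [Finset.mem_sigma] at hs
        obtain ⟨hl, hxy⟩ := hs
        rw [mem_filter, mem_product] at hxy
        simp only [ln, mem_filter] at hxy
        have ht : 0 < t := h𝓛 _ hl
        simp only [T, φ, mem_filter, mem_product]
        refine ⟨⟨hxy.1.1.1, hxy.1.2.1, hxy.1.1.2, hxy.1.2.2⟩, hxy.2, ?_⟩
        have := mul_lt_mul_of_pos_left hxy.2 ht
        linarith
    _ = _ := by ring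

/-- Cauchy-Schwarz for fibres: `|T|² ≤ |W| #{(t, t') : f t = f t'}` -/
theorem card_sq_le {ι κ : Type*} [DecidableEq ι] [DecidableEq κ] (T : Finset ι) (W : Finset κ)
    (f : ι → κ) (hf : ∀ t ∈ T, f t ∈ W) :
    ((T.card : ℝ)) ^ 2 ≤ W.card * (((T ×ˢ T).filter (fun p => f p.1 = f p.2)).card : ℝ) := by
  have h1 : (T.card : ℝ) = ∑ w ∈ W, ((T.filter (fun t => f t = w)).card : ℝ) := by
    rw [Finset.card_eq_sum_card_fiberwise hf]
    push_cast
    rfl
  have h2 : (((T ×ˢ T).filter (fun p => f p.1 = f p.2)).card : ℝ) =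
      ∑ w ∈ W, ((T.filter (fun t => f t = w)).card : ℝ) ^ 2 := by
    have h3 : ((T ×ˢ T).filter (fun p => f p.1 = f p.2)).card =
        ∑ w ∈ W, (((T ×ˢ T).filter (fun p => f p.1 = f p.2)).filter (fun p => f p.1 = w)).card := by
      apply Finset.card_eq_sum_card_fiberwise
      intro p hp
      rw [Finset.mem_coe, mem_filter, mem_product] at hp
      exact hf _ hp.1.1
    rw [h3]
    push_cast
    refine Finset.sum_congr rfl fun w _ => ?_
    have h4 : ((T ×ˢ T).filter (fun p => f p.1 = f p.2)).filter (fun p => f p.1 = w) =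
        (T.filter (fun t => f t = w)) ×ˢ (T.filter (fun t => f t = w)) := by
      ext ⟨a, b⟩
      simp only [mem_filter, mem_product]
      constructor
      · rintro ⟨⟨⟨ha, hb⟩, hab⟩, haw⟩
        exact ⟨⟨ha, haw⟩, hb, hab ▸ haw⟩
      · rintro ⟨⟨ha, haw⟩, hb, hbw⟩
        exact ⟨⟨⟨ha, hb⟩, haw.trans hbw.symm⟩, haw⟩
    rw [h4, Finset.card_product]
    push_cast
    ring
  rw [h2, h1]
  exact sq_sum_le_card_mul_sum_sq

theorem fib_aux (F kX kS κ : ℝ) (h : F ≤ kX * kS) (h1 : 0 ≤ kX) (h2 : 0 ≤ kS)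
    (h3 : kX ≤ 2 * κ) (h4 : kS ≤ 2 * κ) : F ≤ √kX * √(8 * κ ^ 3) := by
  refine h.trans ?_
  rw [← Real.sqrt_mul h1]
  apply Real.le_sqrt_of_sq_le
  have h6 : 0 ≤ 2 * κ := h2.trans h4
  have h5 : kX * kS ^ 2 ≤ (2 * κ) * (2 * κ) ^ 2 := by gcongr
  calc (kX * kS) ^ 2 = kX * (kX * kS ^ 2) := by ring
    _ ≤ kX * ((2 * κ) * (2 * κ) ^ 2) := mul_le_mul_of_nonneg_left h5 h1
    _ = kX * (8 * κ ^ 3) := by ring

/-- one slope: `F(t)² ≤ 8 m² ∑ (k - 1)³` -/
theorem slope (m : ℕ) (X S : Finset K) (G : Finset (K × K)) (hX : X.card ≤ m)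
    (hG : ∀ p ∈ G, p.1 ∈ X ∧ p.2 ≠ 0 ∧ p.1 + p.2 ∈ S) (t : K) :
    (((G ×ˢ G).filter (fun p => p.1.2 = t * p.2.2)).card : ℝ) ^ 2 ≤
      8 * (m : ℝ) ^ 2 * ∑ c ∈ (G ×ˢ G).image (fun p => p.1.1 - t * p.2.1),
        (((ln (X ∪ S) t c).card - 1 : ℕ) : ℝ) ^ 3 := by
  classical
  set C := (G ×ˢ G).image (fun p => p.1.1 - t * p.2.1) with hC
  set V := X ∪ S with hV
  have h1 : (((G ×ˢ G).filter (fun p => p.1.2 = t * p.2.2)).card : ℝ) =
      ∑ c ∈ C, ((((G ×ˢ G).filter (fun p => p.1.2 = t * p.2.2)).filter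
        (fun p => p.1.1 - t * p.2.1 = c)).card : ℝ) := by
    rw [Finset.card_eq_sum_card_fiberwise (s := (G ×ˢ G).filter (fun p => p.1.2 = t * p.2.2))
      (f := fun p => p.1.1 - t * p.2.1) (t := C)]
    · push_cast
      rfl
    · intro p hp
      rw [Finset.mem_coe, mem_filter] at hp
      exact Finset.mem_image_of_mem _ hp.1
  -- each fibre
  have h2 : ∀ c ∈ C, ((((G ×ˢ G).filter (fun p => p.1.2 = t * p.2.2)).filter
        (fun p => p.1.1 - t * p.2.1 = c)).card : ℝ) ≤
      √(((ln X t c).card : ℝ)) * √(8 * (((ln V t c).card - 1 : ℕ) : ℝ) ^ 3) := by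
    intro c _
    set Fb := (((G ×ˢ G).filter (fun p => p.1.2 = t * p.2.2)).filter
        (fun p => p.1.1 - t * p.2.1 = c)) with hFb
    have hmem : ∀ p ∈ Fb, p.1 ∈ G ∧ p.2 ∈ G ∧ p.1.2 = t * p.2.2 ∧ p.1.1 - t * p.2.1 = c := by
      intro p hp
      rw [hFb, mem_filter, mem_filter, mem_product] at hp
      exact ⟨hp.1.1.1, hp.1.1.2, hp.1.2, hp.2⟩
    have h3 : Fb.card ≤ (ln X t c).card * (ln S t c).card := by
      rw [← Finset.card_product]
      apply Finset.card_le_card_of_injOn (fun p => (p.2.1, p.2.1 + p.2.2))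
      · intro p hp
        obtain ⟨hp1, hp2, hp3, hp4⟩ := hmem p hp
        have e1 : t * p.2.1 + c = p.1.1 := by rw [← hp4]; ring
        have e2 : t * (p.2.1 + p.2.2) + c = p.1.1 + p.1.2 := by rw [← hp4, hp3]; ring
        rw [Finset.mem_coe, mem_product]
        simp only [ln, mem_filter]
        rw [e1, e2]
        exact ⟨⟨(hG _ hp2).1, (hG _ hp1).1⟩, (hG _ hp2).2.2, (hG _ hp1).2.2⟩
      · intro p hp q hq hpq
        obtain ⟨hp1, hp2, hp3, hp4⟩ := hmem p hp
        obtain ⟨hq1, hq2, hq3, hq4⟩ := hmem q hq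
        simp only [Prod.mk.injEq] at hpq
        obtain ⟨ha, hb⟩ := hpq
        have e1 : p.2.2 = q.2.2 := by
          have := hb
          rw [ha] at this
          exact add_left_cancel this
        have e2 : p.1.2 = q.1.2 := by rw [hp3, hq3, e1]
        have e3 : p.1.1 = q.1.1 := by
          have : p.1.1 - t * p.2.1 = q.1.1 - t * q.2.1 := hp4.trans hq4.symm
          rw [ha] at this
          exact sub_left_injective this
        exact Prod.ext (Prod.ext e3 e2) (Prod.ext ha e1)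
    rcases Finset.eq_empty_or_nonempty Fb with h0 | ⟨p, hp⟩
    · rw [h0]
      simp only [Finset.card_empty, Nat.cast_zero]
      positivity
    · obtain ⟨hp1, hp2, hp3, hp4⟩ := hmem p hp
      have e1 : t * p.2.1 + c = p.1.1 := by rw [← hp4]; ring
      have e2 : t * (p.2.1 + p.2.2) + c = p.1.1 + p.1.2 := by rw [← hp4, hp3]; ring
      have hk2 : 2 ≤ (ln V t c).card := by
        have hsub : ({p.2.1, p.2.1 + p.2.2} : Finset K) ⊆ ln V t c := by
          intro x hx
          rw [Finset.mem_insert, Finset.mem_singleton] at hx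
          simp only [ln, mem_filter, hV, mem_union]
          rcases hx with rfl | rfl
          · rw [e1]
            exact ⟨Or.inl (hG _ hp2).1, Or.inl (hG _ hp1).1⟩
          · rw [e2]
            exact ⟨Or.inr (hG _ hp2).2.2, Or.inr (hG _ hp1).2.2⟩
        have hne : p.2.1 ≠ p.2.1 + p.2.2 := by
          intro h
          exact (hG _ hp2).2.1 (by linear_combination -h)
        rw [← Finset.card_pair hne]
        exact Finset.card_le_card hsub
      have hX1 : (ln X t c).card ≤ (ln V t c).card := by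
        apply Finset.card_le_card
        intro x hx
        simp only [ln, mem_filter, hV, mem_union] at hx ⊢
        exact ⟨Or.inl hx.1, Or.inl hx.2⟩
      have hS1 : (ln S t c).card ≤ (ln V t c).card := by
        apply Finset.card_le_card
        intro x hx
        simp only [ln, mem_filter, hV, mem_union] at hx ⊢
        exact ⟨Or.inr hx.1, Or.inr hx.2⟩
      have hk : ((ln V t c).card : ℝ) ≤ 2 * (((ln V t c).card - 1 : ℕ) : ℝ) := by
        exact_mod_cast (show (ln V t c).card ≤ 2 * ((ln V t c).card - 1) by omega)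
      exact fib_aux _ _ _ _ (by exact_mod_cast h3) (Nat.cast_nonneg _) (Nat.cast_nonneg _)
        (le_trans (by exact_mod_cast hX1) hk) (le_trans (by exact_mod_cast hS1) hk)
  have h6 : (∑ c ∈ C, √(((ln X t c).card : ℝ)) * √(8 * (((ln V t c).card - 1 : ℕ) : ℝ) ^ 3)) ^ 2 ≤
      (∑ c ∈ C, ((ln X t c).card : ℝ)) * ∑ c ∈ C, 8 * (((ln V t c).card - 1 : ℕ) : ℝ) ^ 3 := by
    refine (Finset.sum_mul_sq_le_sq_mul_sq C _ _).trans (le_of_eq ?_)
    congr 1
    · exact Finset.sum_congr rfl fun c _ => Real.sq_sqrt (Nat.cast_nonneg _)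
    · exact Finset.sum_congr rfl fun c _ => Real.sq_sqrt (by positivity)
  have h7 : (∑ c ∈ C, ((ln X t c).card : ℝ)) ≤ (m : ℝ) ^ 2 := by
    have h8 : ∑ c ∈ C, (ln X t c).card ≤ m ^ 2 := by
      calc ∑ c ∈ C, (ln X t c).card = (C.sigma (fun c => ln X t c)).card :=
            (Finset.card_sigma _ _).symm
        _ ≤ (X ×ˢ X).card := by
            apply Finset.card_le_card_of_injOn (fun s => (s.2, t * s.2 + s.1))
            · rintro ⟨c, a⟩ hs
              rw [Finset.mem_coe, Finset.mem_sigma] at hs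
              simp only [ln, mem_filter] at hs
              rw [Finset.mem_coe, mem_product]
              exact hs.2
            · rintro ⟨c, a⟩ _ ⟨c', a'⟩ _ h
              simp only [Prod.mk.injEq] at h
              obtain ⟨h1, h2⟩ := h
              subst h1
              have := add_left_cancel h2
              subst this
              rfl
        _ = X.card * X.card := Finset.card_product _ _
        _ ≤ m ^ 2 := by
            rw [sq]
            exact Nat.mul_le_mul hX hX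
    exact_mod_cast h8
  rw [h1]
  calc _ ≤ (∑ c ∈ C, √(((ln X t c).card : ℝ)) * √(8 * (((ln V t c).card - 1 : ℕ) : ℝ) ^ 3)) ^ 2 := by
        apply pow_le_pow_left₀ (Finset.sum_nonneg fun _ _ => Nat.cast_nonneg _)
        exact Finset.sum_le_sum h2
    _ ≤ _ := h6
    _ ≤ (m : ℝ) ^ 2 * ∑ c ∈ C, 8 * (((ln V t c).card - 1 : ℕ) : ℝ) ^ 3 := by
        apply mul_le_mul_of_nonneg_right h7
        exact Finset.sum_nonneg fun _ _ => by positivity
    _ = _ := by
        rw [← Finset.mul_sum]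
        ring

/-- (E): the energy lemma -/
theorem energy (m : ℕ) (hm : 1 ≤ m) (X S Y : Finset K) (G : Finset (K × K)) (hX : X.card ≤ m)
    (hS : S.card ≤ m) (hY : (∀ y ∈ Y, 0 < y) ∨ (∀ y ∈ Y, y < 0))
    (hG : ∀ p ∈ G, p.1 ∈ X ∧ p.2 ∈ Y ∧ p.1 + p.2 ∈ S) :
    (G.card : ℝ) ^ 4 ≤ 1024 * (m : ℝ) ^ 6 * (1 + Real.log m) * ((Y * Y).card : ℝ) := by
  classical
  have hm1 : (1 : ℝ) ≤ m := by exact_mod_cast hm
  have hlm : 0 ≤ Real.log m := Real.log_nonneg hm1
  rcases Finset.eq_empty_or_nonempty G with h0 | hGne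
  · subst h0
    simp only [Finset.card_empty, Nat.cast_zero]
    rw [zero_pow (by norm_num)]
    positivity
  have hYne : ∀ y ∈ Y, y ≠ 0 := by
    intro y hy
    rcases hY with h | h
    · exact (h y hy).ne'
    · exact (h y hy).ne
  have hpos : ∀ y ∈ Y, ∀ z ∈ Y, 0 < y / z := by
    intro y hy z hz
    rcases hY with h | h
    · exact div_pos (h y hy) (h z hz)
    · exact div_pos_of_neg_of_neg (h y hy) (h z hz)
  have hG' : ∀ p ∈ G, p.1 ∈ X ∧ p.2 ≠ 0 ∧ p.1 + p.2 ∈ S := fun p hp =>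
    ⟨(hG p hp).1, hYne _ (hG p hp).2.1, (hG p hp).2.2⟩
  -- first Cauchy-Schwarz
  have h1 := card_sq_le (G ×ˢ G) (Y * Y) (fun p => p.1.2 * p.2.2) (fun p hp => by
    rw [mem_product] at hp
    exact Finset.mul_mem_mul (hG _ hp.1).2.1 (hG _ hp.2).2.1)
  rw [Finset.card_product] at h1
  -- the energy as a sum over ratios
  set Q := (((G ×ˢ G) ×ˢ (G ×ˢ G)).filter
    (fun p : ((K × K) × (K × K)) × ((K × K) × (K × K)) =>
      p.1.1.2 * p.1.2.2 = p.2.1.2 * p.2.2.2)) with hQ
  set T := ((G ×ˢ G).image (fun p => p.1.2 / p.2.2)) with hT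
  have h2 : (Q.card : ℝ) ≤
      ∑ t ∈ T, (((G ×ˢ G).filter (fun p => p.1.2 = t * p.2.2)).card : ℝ) ^ 2 := by
    have h3 : Q.card ≤ ∑ t ∈ T, (((G ×ˢ G).filter (fun p => p.1.2 = t * p.2.2)).card) ^ 2 := by
      calc Q.card ≤ (T.sigma (fun t => ((G ×ˢ G).filter (fun p => p.1.2 = t * p.2.2)) ×ˢ
            ((G ×ˢ G).filter (fun p => p.1.2 = t * p.2.2)))).card := by
            apply Finset.card_le_card_of_injOn
              (fun p => ⟨p.1.1.2 / p.2.1.2, ((p.1.1, p.2.1), (p.2.2, p.1.2))⟩)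
            · rintro ⟨⟨a, b⟩, ⟨c, d⟩⟩ hp
              rw [Finset.mem_coe, hQ, mem_filter, mem_product, mem_product, mem_product] at hp
              obtain ⟨⟨⟨ha, hb⟩, hc, hd⟩, he⟩ := hp
              simp only at ha hb hc hd he
              have hc0 : c.2 ≠ 0 := (hG' c hc).2.1
              rw [Finset.mem_coe, Finset.mem_sigma]
              refine ⟨Finset.mem_image.2 ⟨(a, c), mem_product.2 ⟨ha, hc⟩, rfl⟩, ?_⟩
              simp only [mem_product, mem_filter]
              refine ⟨⟨⟨ha, hc⟩, ?_⟩, ⟨hd, hb⟩, ?_⟩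
              · field_simp
              · have hc0 : c.2 ≠ 0 := (hG' c hc).2.1
                field_simp
                linear_combination -he
            · rintro ⟨⟨a, b⟩, ⟨c, d⟩⟩ _ ⟨⟨a', b'⟩, ⟨c', d'⟩⟩ _ h
              simp only [Sigma.mk.injEq, heq_eq_eq, Prod.mk.injEq] at h
              obtain ⟨_, ⟨h1, h2⟩, h3, h4⟩ := h
              rw [h1, h2, h3, h4]
        _ = _ := by
            rw [Finset.card_sigma]
            refine Finset.sum_congr rfl fun t _ => ?_
            rw [Finset.card_product, sq]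
    exact_mod_cast h3
  set V := X ∪ S with hV
  obtain ⟨g, hg⟩ := hGne
  have hV1 : 1 ≤ V.card := Finset.card_pos.2 ⟨g.1, mem_union_left _ (hG g hg).1⟩
  have hV2 : (V.card : ℝ) ≤ 2 * m := by
    have : V.card ≤ 2 * m := (Finset.card_union_le _ _).trans (by omega)
    exact_mod_cast this
  -- sum over the lines
  have h4 : ∑ t ∈ T, ∑ c ∈ (G ×ˢ G).image (fun p => p.1.1 - t * p.2.1),
      (((ln V t c).card - 1 : ℕ) : ℝ) ^ 3 ≤ 4 * (V.card : ℝ) ^ 4 * (1 + Real.log V.card) := by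
    let 𝓛 : Finset (K × K) := (T.sigma
      (fun t => (G ×ˢ G).image (fun p => p.1.1 - t * p.2.1))).map
      ⟨fun s => (s.1, s.2), by
        rintro ⟨a, b⟩ ⟨a', b'⟩ h
        simp only [Prod.mk.injEq] at h
        obtain ⟨h1, h2⟩ := h
        subst h1 h2
        rfl⟩
    have h5 := lines V hV1 𝓛 (by
      intro l hl
      simp only [𝓛, Finset.mem_map, Function.Embedding.coeFn_mk] at hl
      obtain ⟨⟨t, c⟩, hs, rfl⟩ := hl
      rw [Finset.mem_sigma] at hs
      obtain ⟨p, hp, hpt⟩ := Finset.mem_image.1 hs.1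
      rw [mem_product] at hp
      simp only at hpt ⊢
      rw [← hpt]
      exact hpos _ (hG _ hp.1).2.1 _ (hG _ hp.2).2.1)
    have h6 : ∑ l ∈ 𝓛, (((ln V l.1 l.2).card - 1 : ℕ) : ℝ) ^ 3 =
        ∑ t ∈ T, ∑ c ∈ (G ×ˢ G).image (fun p => p.1.1 - t * p.2.1),
          (((ln V t c).card - 1 : ℕ) : ℝ) ^ 3 := by
      simp only [𝓛]
      rw [Finset.sum_map, Finset.sum_sigma]
      rfl
    rw [← h6]
    exact h5
  have h7 : (Q.card : ℝ) ≤ 8 * (m : ℝ) ^ 2 * (4 * (V.card : ℝ) ^ 4 * (1 + Real.log V.card)) := by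
    refine h2.trans ?_
    calc _ ≤ ∑ t ∈ T, 8 * (m : ℝ) ^ 2 * ∑ c ∈ (G ×ˢ G).image (fun p => p.1.1 - t * p.2.1),
          (((ln V t c).card - 1 : ℕ) : ℝ) ^ 3 :=
          Finset.sum_le_sum fun t _ => slope m X S G hX hG' t
      _ = 8 * (m : ℝ) ^ 2 * ∑ t ∈ T, ∑ c ∈ (G ×ˢ G).image (fun p => p.1.1 - t * p.2.1),
          (((ln V t c).card - 1 : ℕ) : ℝ) ^ 3 := by rw [Finset.mul_sum]
      _ ≤ _ := mul_le_mul_of_nonneg_left h4 (by positivity)
  have hV0 : (0 : ℝ) < V.card := by exact_mod_cast hV1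
  have h8 : 1 + Real.log V.card ≤ 2 * (1 + Real.log m) := by
    have h9 : Real.log V.card ≤ Real.log (2 * m) := Real.log_le_log hV0 hV2
    rw [Real.log_mul (by norm_num) (by linarith)] at h9
    have h10 := Real.log_two_lt_d9
    linarith
  have h11 : (V.card : ℝ) ^ 4 ≤ (2 * m) ^ 4 := by gcongr
  have h12 : 0 ≤ 1 + Real.log V.card := by
    have : 0 ≤ Real.log V.card := Real.log_nonneg (by exact_mod_cast hV1)
    linarith
  have h13 : (Q.card : ℝ) ≤ 1024 * (m : ℝ) ^ 6 * (1 + Real.log m) := by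
    refine h7.trans ?_
    calc 8 * (m : ℝ) ^ 2 * (4 * (V.card : ℝ) ^ 4 * (1 + Real.log V.card))
        ≤ 8 * (m : ℝ) ^ 2 * (4 * (2 * m) ^ 4 * (2 * (1 + Real.log m))) := by gcongr
      _ = _ := by ring
  have h14 : (G.card : ℝ) ^ 4 = ((G.card * G.card : ℕ) : ℝ) ^ 2 := by
    push_cast
    ring
  rw [h14]
  refine h1.trans ?_
  rw [mul_comm]
  exact mul_le_mul_of_nonneg_right h13 (Nat.cast_nonneg _)

end Pool.Agent.Helper62.SP
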